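import Pool.Agent.J4.H19.LC.Eff

/-!
# Effective semiampleness for abelian covers of projective space branched along log canonical
# hypersurfaces

Let `F k`, `k = 0, ..., n`, be forms of degrees `d k` in `n + 1` variables without a common zero such
that the pair of the projective `n`-space and the sum of the hypersurfaces `F k = 0` is log canonical
(for instance, products of the members of `n + 1` parts of a finite family of hypersurfaces with
normal crossings), and let `K` be the function field of an abelian cover of the projective space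
which is branched only along these hypersurfaces: `K` is generated by the affine coordinates
`x (b + 1) / x 0` and by roots `z j`, `z j ^ (m j) = ∏ k, (F k (x) / x 0 ^ (d k)) ^ (a j k)`, where
`m j` divides `∑ k, a j k * d k`. Let `B` be a bound for the degrees `d k` and for the product of the
`m j`, and `T = ((n + 1)! * B ^ (n + 1))!`.

* If `Y` is a normal projective variety with function field `K` and canonical singularities such that
  `K_Y` is nef (a minimal model, for instance a smooth one), then `T K_Y` is Cartier and generated by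
  its global sections.
* If `K_X` is pseudo-effective, `X` being a projective manifold with function field `K`, then the
  rational map which is given by the sections of `T K_X` has an image of dimension
  `κ (X) = ν (X)`.

Here `T` depends only on `n` and `B`. That `κ (X) = ν (X)` (so that `K_Y` is semiample, by a theorem
of Kawamata, without a bound for the multiple) is proved in `LogCanonicalCovers`.

Proof. The sections of `T K_X` given by the forms `∏ k, F k ^ (T y k - T) * Ω ^ T`, `y` a vertex of
the polyhedron of `LogCanonicalCovers`, whose denominators divide `T` by Cramer's rule and Hadamard's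
inequality, have a smallest possible order at any given divisorial place `Q`, relatively and
asymptotically: if `T c` is the minimum of the orders, then all sections of `m K_X + j A` have order at
least `m c - O (j + 1)` at `Q`. (This is shown by traces to the fields of the radicals and of the
projective space, and by Farkas' lemma.) If `K_Y` is nef, then `q K_Y + H` is semiample for all `q`,
and it follows that the section of `T K_Y` with the smallest order at `Q` generates `T K_Y` at the
centre of `Q`.
-/

set_option autoImplicit false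

open FF MvPolynomial Pool.Agent.W602.GT

namespace Pool.Agent.Results.MP_97d78d_ag.EffectiveSemiampleness

/-- The affine coordinates of the projective space. -/
noncomputable def affine {n : ℕ} {K : Type} [Field K] (x : Fin (n + 1) → K) (b : Fin n) : K :=
  x b.succ / x 0

/-- The value of the form `Ω = ∑ i, ± x i * d x 0 ∧ ... ∧ d x n` (without `d x i`) on vector fields:
the determinant with the rows `x`, `D 0 x`, ..., `D (n - 1) x`. -/
noncomputable def form {n : ℕ} {K : Type} [Field K] [Algebra ℂ K] (x : Fin (n + 1) → K)
    (D : Fin n → Derivation ℂ K K) : K :=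
  (Matrix.of fun i j : Fin (n + 1) => (Fin.cases (x j) (fun l => D l (x j)) i : K)).det

/-- The pair of the projective `n`-space and the sum of the hypersurfaces `F k = 0` is log
canonical: for all prime divisors `P` over the projective space (divisorial places `P` of its function
field `K`), and homogeneous coordinates `x` which are regular and not all zero at `P`, the canonical
form of the projective space vanishes along `P` at least to the order `∑ k, P.ord (F k (x)) - 1`. -/
def LogCanonical {n : ℕ} (F : Fin (n + 1) → MvPolynomial (Fin (n + 1)) ℂ) : Prop :=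
  ∀ (K : Type) [Field K] [Algebra ℂ K] (x : Fin (n + 1) → K), x 0 ≠ 0 →
    IsTranscendenceBasis ℂ (affine x) → IntermediateField.adjoin ℂ (Set.range (affine x)) = ⊤ →
    ∀ P : Place ℂ K, Divisorial n P → (∀ l, 0 ≤ P.ord (x l)) → (∃ l, P.ord (x l) = 0) →
    ∀ D : Fin n → Derivation ℂ K K, (∀ c, DerReg P (D c)) →
      form x D = 0 ∨ ∑ k, P.ord (aeval x (F k)) - 1 ≤ P.ord (form x D)

/-- The hypersurfaces `F k = 0` have no common point. -/
def NoCommonPoint {n : ℕ} (F : Fin (n + 1) → MvPolynomial (Fin (n + 1)) ℂ) : Prop :=
  ∀ x : Fin (n + 1) → ℂ, x ≠ 0 → ∃ k, eval x (F k) ≠ 0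

/-- The multiple `T = ((n + 1)! * B ^ (n + 1))!`. -/
def multiple (n B : ℕ) : ℕ := ((n + 1).factorial * B ^ (n + 1)).factorial

section sections

/-- `ω` is a section of `m K_X + j A`: a rational section of the `m`-th power of the canonical
bundle (`IsPluri`: a function of `n` rational vector fields which is multiplied by `det B ^ m` under
a linear substitution `B`) whose order on the vector fields which are regular at `P` is at least `j`
times the order of one of the functions in `S`, for all prime divisors `P` over `X` (all divisorial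
places `P` of `K`). Here `A` is the divisor which is generated by the finite set `S` of functions;
`A = 0` if `S = {1}`. -/
def IsSection {K : Type} [Field K] [Algebra ℂ K] (n : ℕ) (S : Finset K) (m j : ℕ)
    (ω : (Fin n → Derivation ℂ K K) → K) : Prop :=
  IsPluri m ω ∧ ∀ P : Place ℂ K, Divisorial n P → ∀ D : Fin n → Derivation ℂ K K,
    (∀ c, DerReg P (D c)) → ω D = 0 ∨ ∃ s ∈ S, s ≠ 0 ∧ j * P.ord s ≤ P.ord (ω D)

variable (n : ℕ) (K : Type) [Field K] [Algebra ℂ K]

/-- The rational map given by the sections of `T K_X` has an image of dimension at least `h`: there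
are sections of `T K_X` whose ratios contain `h` algebraically independent functions (for `h = 0`:
there is a nonzero section). In particular, `κ (X) ≥ h`. -/
def ImageGe (T h : ℕ) : Prop :=
  ∃ ω : Fin (h + 1) → (Fin n → Derivation ℂ K K) → K, (∀ b, IsSection n {1} T 1 (ω b)) ∧
    ∃ D, ω 0 D ≠ 0 ∧ AlgebraicIndependent ℂ (fun b : Fin h => ω b.succ D / ω 0 D)

/-- `ν (X) ≤ h`: for every divisor `A` there is a constant `C` such that
`h⁰ (m K_X + A) ≤ C m ^ h` for all `m ≥ 1`. -/
def NumericalLe (h : ℕ) : Prop :=
  ∀ S : Finset K, ∃ C : ℕ, ∀ m M : ℕ, 1 ≤ m →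
    (∃ ω : Fin M → (Fin n → Derivation ℂ K K) → K, LinearIndependent ℂ ω ∧
      ∀ l, IsSection n S m 1 (ω l)) → M ≤ C * m ^ h

/-- `K_X` is pseudo-effective: there is a divisor `A` such that for all `M` a positive multiple of
`M K_X + A` is effective. -/
def Pseudoeffective : Prop :=
  ∃ S : Finset K, ∀ M : ℕ, ∃ j : ℕ, 1 ≤ j ∧ ∃ ω : (Fin n → Derivation ℂ K K) → K, ω ≠ 0 ∧
    IsSection n S (j * M) j ω

end sections

section models

variable {K : Type} [Field K] [Algebra ℂ K] {N : ℕ}

/-- The coordinate ring of the affine chart `y j ≠ 0` of the projective variety with generic point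
`y`. -/
def chart (y : Fin (N + 1) → K) (j : Fin (N + 1)) : Subalgebra ℂ K :=
  Algebra.adjoin ℂ (Set.range fun i => y i / y j)

/-- `y` is the generic point, in homogeneous coordinates, of a normal projective variety `Y` in the
projective `N`-space with function field `K`. -/
def NormalModel (y : Fin (N + 1) → K) : Prop :=
  (∃ j, y j ≠ 0) ∧
  (∀ j, y j ≠ 0 → IntermediateField.adjoin ℂ (Set.range fun i => y i / y j) = ⊤) ∧
  ∀ j, y j ≠ 0 → IsIntegrallyClosed (chart y j)

/-- The centre of the place `P` on `Y` is in the chart `y j ≠ 0`. -/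
def Centred (y : Fin (N + 1) → K) (j : Fin (N + 1)) (P : Place ℂ K) : Prop :=
  y j ≠ 0 ∧ ∀ i, P.Reg (y i / y j)

/-- The local ring of `Y` at the centre of the place `P`: the quotients `a / b` of elements of the
coordinate ring of a chart which contains the centre, such that `b` is not zero at the centre. -/
def localRing (y : Fin (N + 1) → K) (P : Place ℂ K) : Set K :=
  {f | ∃ j, Centred y j P ∧ ∃ a ∈ chart y j, ∃ b ∈ chart y j, b ≠ 0 ∧ P.ord b = 0 ∧ f * b = a}

/-- `P` is a prime divisor on `Y`: the valuation ring of `P` is the local ring of `Y` at the centre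
of `P`. -/
def IsPrimeDivisor (y : Fin (N + 1) → K) (P : Place ℂ K) : Prop :=
  ∀ f, P.Reg f → f ∈ localRing y P

/-- The prime divisor `P` of `Y` contains the centre of the place `Q` on `Y`. -/
def Through (y : Fin (N + 1) → K) (P Q : Place ℂ K) : Prop :=
  ∀ f ∈ localRing y Q, P.Reg f

/-- The order of the form `ω` along `P` is at least `c`: on vector fields which are regular at `P`
its values have order at least `c`. -/
def OrdGe {n : ℕ} (P : Place ℂ K) (ω : (Fin n → Derivation ℂ K K) → K) (c : ℚ) : Prop :=
  ∀ E : Fin n → Derivation ℂ K K, (∀ i, DerReg P (E i)) → ω E = 0 ∨ c ≤ P.ord (ω E)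

/-- The order of the form `ω` along `P` is `c`. -/
def OrdEq {n : ℕ} (P : Place ℂ K) (ω : (Fin n → Derivation ℂ K K) → K) (c : ℚ) : Prop :=
  OrdGe P ω c ∧ ∃ E : Fin n → Derivation ℂ K K, (∀ i, DerReg P (E i)) ∧ ω E ≠ 0 ∧ P.ord (ω E) = c

/-- `ω` is a section of `m K_Y` which generates this divisorial sheaf at the centre of `Q`: it has no
poles along the prime divisors of `Y`, and no zeros along those which contain the centre of `Q`. -/
def Generates {n : ℕ} (y : Fin (N + 1) → K) (m : ℕ) (ω : (Fin n → Derivation ℂ K K) → K)
    (Q : Place ℂ K) : Prop :=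
  IsPluri m ω ∧ (∀ P, IsPrimeDivisor y P → OrdGe P ω 0) ∧
    ∀ P, IsPrimeDivisor y P → Through y P Q → OrdEq P ω 0

/-- The variety `Y`, of dimension `n`, has canonical singularities: for every prime divisor `Q` over
`Y` there is an `r`-canonical form `η` which generates `r K_Y` at the centre of `Q` on `Y` (its order
is `0` along all prime divisors `P` of `Y` through this centre), with order at least `0` along
`Q`. -/
def CanonicalSingularities (y : Fin (N + 1) → K) (n : ℕ) : Prop :=
  ∀ Q : Place ℂ K, Divisorial n Q → ∃ r : ℕ, 0 < r ∧ ∃ η : (Fin n → Derivation ℂ K K) → K,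
    IsPluri r η ∧ (∀ P, IsPrimeDivisor y P → Through y P Q → OrdEq P η 0) ∧ OrdGe Q η 0

/-- The canonical divisor of `Y`, of dimension `n`, is nef: if `H` is a hyperplane section `y i = 0`,
then for all `q ≥ 1` the divisor `q K_Y + H` is semiample, that is, for some `m ≥ 1` and for all prime
divisors `Q` over `Y` there is a section `ω` of `m (q K_Y + H)`, a form with order at least
`- m ord (y i / y l)` along the prime divisors of `Y` with centre in the chart `y l ≠ 0`, which
generates this sheaf at the centre of `Q`. -/
def Nef (y : Fin (N + 1) → K) (n : ℕ) : Prop :=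
  ∀ i, y i ≠ 0 → ∀ q : ℕ, 1 ≤ q → ∃ m : ℕ, 1 ≤ m ∧ ∀ Q : Place ℂ K, Divisorial n Q →
    ∃ ω : (Fin n → Derivation ℂ K K) → K, IsPluri (m * q) ω ∧
      (∀ P l, IsPrimeDivisor y P → Centred y l P → OrdGe P ω (-(m * P.ord (y i / y l)))) ∧
      ∀ P l, IsPrimeDivisor y P → Through y P Q → Centred y l P →
        OrdEq P ω (-(m * P.ord (y i / y l)))

end models

/-- **Effective semiampleness.** Let `K` be the function field of an abelian cover of the projective
`n`-space which is branched along `n + 1` hypersurfaces `F k = 0` of degrees `d k`, without a common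
point and with a log canonical sum, let `B ≥ d k` for all `k` and `B ≥ ∏ j, m j`, and
`T = ((n + 1)! * B ^ (n + 1))!`. If `Y` is a normal projective variety with function field `K`, with
canonical singularities and such that `K_Y` is nef, then `T K_Y` is generated by its global sections.
If `K_X` is pseudo-effective for the projective manifolds `X` with function field `K`, then the
dimension of the image of the map given by the sections of `T K_X` is `ν (X)`. -/
theorem result (n R : ℕ) (hn : 1 ≤ n) (d : Fin (n + 1) → ℕ) (hd : ∀ k, 1 ≤ d k)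
    (F : Fin (n + 1) → MvPolynomial (Fin (n + 1)) ℂ) (hF0 : ∀ k, F k ≠ 0)
    (hF : ∀ k, (F k).IsHomogeneous (d k)) (hN : NoCommonPoint F) (hL : LogCanonical F)
    (m : Fin R → ℕ) (hm : ∀ j, 1 ≤ m j) (a : Fin R → Fin (n + 1) → ℕ)
    (hdiv : ∀ j, m j ∣ ∑ k, a j k * d k)
    (K : Type) [Field K] [Algebra ℂ K] (x : Fin (n + 1) → K) (hx0 : x 0 ≠ 0)
    (hbas : IsTranscendenceBasis ℂ (affine x)) (z : Fin R → K)
    (hz : ∀ j, z j ^ m j = ∏ k, (aeval x (F k) / x 0 ^ d k) ^ a j k)
    (hgen : IntermediateField.adjoin ℂ (Set.range (affine x) ∪ Set.range z) = ⊤)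
    (B : ℕ) (hB1 : ∀ k, d k ≤ B) (hB2 : ∏ j, m j ≤ B) :
    (∀ (N : ℕ) (y : Fin (N + 1) → K), NormalModel y → CanonicalSingularities y n → Nef y n →
      ∀ Q : Place ℂ K, Divisorial n Q →
        ∃ ω : (Fin n → Derivation ℂ K K) → K, Generates y (multiple n B) ω Q) ∧
    (Pseudoeffective n K → ∃ h : ℕ, ImageGe n K (multiple n B) h ∧ NumericalLe n K h) := by
  obtain ⟨e, rfl⟩ : ∃ e, n = e + 1 := ⟨n - 1, by omega⟩
  obtain ⟨h1, h2⟩ := Pool.Agent.J4.H19.LC.main_eff hx0 hbas hd hF hF0 hN hL hm hz hdiv hgen
    hB1 hB2
  refine ⟨fun N y hy hcan hnef Q hQ => ?_, h1⟩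
  obtain ⟨ω, hω, hω'⟩ := h2 N y ⟨hy.1, hy.2.1, hy.2.2⟩ hcan (fun i hi q hq => by
    obtain ⟨m, hm, hgen⟩ := hnef i hi q hq
    refine ⟨m, hm, fun Q hQ => ?_⟩
    obtain ⟨ω, h3, h4, h5⟩ := hgen Q hQ
    refine ⟨ω, ⟨h3, fun P l hP hl => ?_⟩, fun P l hP hPt hl => ?_⟩
    · rw [Pi.zero_apply, mul_zero, neg_zero, zero_sub]
      exact h4 P l hP hl
    · rw [Pi.zero_apply, mul_zero, neg_zero, zero_sub]
      exact h5 P l hP hPt hl) Q hQ
  refine ⟨ω, hω.1, fun P hP => ?_, hω'⟩
  have h3 := hω.2 P hP
  rwa [Pi.zero_apply, neg_zero] at h3

end Pool.Agent.Results.MP_97d78d_ag.EffectiveSemiampleness
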