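import Pool.Agent.J4.H19.FD.Rel
import Pool.Agent.J4.H18.MS.Poly

/-!
# Canonical images of the images of a fibration, and abundance for fibres of any dimension

Let `V ⇢ V'` be a dominant rational map of varieties of the dimensions `N` and `n`, with fibres of
ANY dimension `f = N - n`, and let the function field of `V'` be generated by the function fields of
varieties `V' i`, `i < k` (for instance `k = 1`, or `V' ⊂ V' 0 × ⋯ × V' (k - 1)`). Let `S i` be sets of
functions on `V' i`, and let `ω j` be finitely many canonical forms on `V`, possibly with poles, such that

* all the forms `s 0 ⋯ s (k - 1) ω j` with `s i ∈ S i` are regular,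
* the restrictions of the `ω j` to the generic fibre of `V ⇢ V'` generate its canonical forms.

Let `V ⇢ W` be an ARBITRARY dominant rational map of finite degree. Let `d i` be the degree over `W i`
of the image of `V` in `W i × V' i`, where `W i` is the image of `V` in `W × V' 0 × ⋯ × V' (i - 1)`. So `W`
is covered by an `n`-dimensional family of varieties `Z ⊂ W` of dimension `f`, the images in `W` of the
general fibres of `V ⇢ V'`; as a family over `V'` this is the image `W'` of `V` in `W × V'`. We show:

* If `S i` separates `d i` general points of `V' i` for all `i` then `p_g(W) = 0` if and only if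
  `p_g(Z) = 0`.
* If `S i` separates `2 d i` general points of `V' i` for all `i` then **the dimension of the canonical
  image of `W` is the sum of `dim V'` and of the dimension of the canonical image of `Z`** (if
  `p_g(Z) ≠ 0`), and all functions on `V'` are algebraic over the function field of the canonical image
  of `W`: the canonical map of `W` determines the member `Z` of the family up to finitely many
  possibilities.

**Abundance.** Let `z` be the dimension of the canonical image of `Z` (for `p_g(Z) ≠ 0`). Then
`κ(W) ≥ n + z = dim W - (f - z)`. So if `f - z ≤ 3`, in particular if `f ≤ 3` and `p_g(Z) ≠ 0`, then the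
fibres of the Iitaka fibration of `W` have dimension at most three, they have good minimal models
(abundance in dimension three), and therefore `W` has a good minimal model (Lai): `K_X` is semiample for
every projective manifold `X` with nef canonical bundle which is birational to `W`. The dimension of
`W` is arbitrary. For families of surfaces `Z` (`f = 2`) this leaves only those with `p_g(Z) = 0`; if
these surfaces `Z` are ruled then `W` is uniruled. For families of curves (`f = 1`) see
`MP_97d78d_ag.FibrationsWithSeveralMaps`: there `p_g(Z) = 0` means that `Z` is rational.

## Examples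

* Let `V` be a general hypersurface of multidegree `(e 1, …, e n, b)` in
  `(ℙ ^ 1) ^ n × ℙ ^ (f + 1)`, `b ≥ f + 2`, `e i ≥ 2`, over `V' = (ℙ ^ 1) ^ n`, `V' i = ℙ ^ 1`. The `ω j` are the
  residue forms with the monomials of degree `b - f - 2` in the coordinates of `ℙ ^ (f + 1)`, and `S i` are
  the polynomials of degree at most `e i - 2` in the coordinate of `V' i`, which separate `e i - 1`
  points (`separates_monomials`). So for all images `W` with `2 d i ≤ e i - 1`: either `p_g(Z) = 0` or
  `κ(W) ≥ n + z`. The same for any base `V'` instead of `(ℙ ^ 1) ^ n` and any very ample class `H` on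
  it: `V` of class `(M H + C, b)` with `K_V' + C` effective, and `2 d ≤ M + 1`. In the same way for
  complete intersections.
* `V = X 0 × ⋯ × X (k - 1) × Y` with a variety `Y` of dimension `f`, where the canonical forms of `X i`
  separate `2 d i` general points. The second condition is the formula of Künneth. Here the `Z` are
  images of `Y`. So all images `W` of products of such varieties `X i` and a surface or a threefold
  `Y` satisfy abundance if they are covered by images `Z` of `Y` with `p_g(Z) ≠ 0`.

## Proof

Let `η` be a canonical form on `W'` which is regular on the generic fibre of `W' ⇢ V'` (for instance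
the pull-back of a canonical form on `W`). Its pull-back to `V` is a combination of the `ω j` with
coefficients `b j` in `ℂ(V')`. Let `σ j` be the trace of `ω j` on `W'`. The trace of the pull-back of `η`
is `[V : W'] η`, and so `[V : W'] η = ∑ b j σ j`. So if there is such an `η ≠ 0` then some `σ j` is
not zero, and by the separation properties some trace on `W` of one of the regular forms
`s 0 ⋯ s (k - 1) ω j` is not zero. The functions on `V'` and the ratios of the `σ j` are algebraic over
the field `R` of the ratios of these traces on `W` (`Pool.Agent.J4.H18.MS.alg_ratios`: if two generic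
points of `W` have the same image under the map given by these traces, then this is a relation
between the points of `W'` over them, which is multilinear in the values of the `s i`). So the ratios
of the forms `η` are algebraic over `R` as well.

The elimination in the relations between the points of two fibres is due to helper145
(`Pool/Agent/N145`) and helper18 (`Pool/Agent/J4/H18/MS`).

`K` and `L` are the function fields of `V` and `W`, `F i` is the one of `V' i`. Prime divisors over `V`
are the divisorial places `P` of `K` (`Divisorial`), and `P.ord` is the order along `P`. A canonical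
form (`IsPluri 1`) on a variety of dimension `N` is a function of `N` rational vector fields; it is
regular at the prime divisor `P` (`RegAt`) if its value on vector fields which are regular at `P` is
regular at `P`. `KodGe ℂ L N (fun _ => False) j` says that `κ(W) ≥ j` (`Pool/Agent/W602/GT`).
-/

set_option autoImplicit false
set_option linter.overlappingInstances false
set_option maxHeartbeats 4000000
set_option synthInstance.maxHeartbeats 400000

open FF Module IntermediateField Pool.Agent Pool.Agent.W602.GT

namespace Pool.Agent.Results.MP_97d78d_ag.FibrationsOfAnyDimension

variable {K : Type} [Field K] [Algebra ℂ K] {N n k : ℕ}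

/-- The functions in `S` separate `r` general points of the variety with the function field `E`: the
embeddings `σ : E → Ω` are the generic points of the variety with coordinates in the field `Ω`, and at
most `r` different such points impose independent conditions on the linear combinations of the
elements of `S`: if `∑ c σ * σ s = 0` for all `s` in `S` then all the coefficients `c σ` are zero. -/
def Separates (E : IntermediateField ℂ K) (S : Set K) (r : ℕ) : Prop :=
  ∀ (Ω : Type) [Field Ω] [Algebra ℂ Ω] [IsAlgClosed Ω] (A : Finset (E →ₐ[ℂ] Ω)), A.card ≤ r →
    ∀ c : (E →ₐ[ℂ] Ω) → Ω, (∀ s : E, (s : K) ∈ S → ∑ σ ∈ A, c σ * σ s = 0) → ∀ σ ∈ A, c σ = 0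

/-- **Example.** The monomials of degree at most `M` in generators `t j` of the function field
separate `M + 1` points. -/
theorem separates_monomials {m : ℕ} (t : Fin m → K) (M : ℕ) :
    Separates (IntermediateField.adjoin ℂ (Set.range t))
      {z | ∃ a : Fin m → ℕ, ∑ j, a j ≤ M ∧ z = ∏ j, t j ^ a j} (M + 1) :=
  J4.H18.MS.separates_monomials t M

/-- The function field of the image `W i` of `V` in the product of `W` and the first `i` of the
varieties `V' l`, with the function fields `F l`. Here `K` and `L` are the function fields of `V`
and `W`. -/
noncomputable def Img (F : Fin k → IntermediateField ℂ K) (L : Type) [Field L] [Algebra L K]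
    (i : ℕ) : IntermediateField L K :=
  IntermediateField.adjoin L {z | ∃ l : Fin k, l.val < i ∧ z ∈ F l}

/-- The degree `d i` over `W i` of the image of `V` in the product of `W i` and `V' i`. -/
noncomputable def deg (F : Fin k → IntermediateField ℂ K) (L : Type) [Field L] [Algebra L K]
    (i : Fin k) : ℕ :=
  finrank (Img F L i) (IntermediateField.adjoin (Img F L i) (F i : Set K))

/-- The function field of the image `W'` of `V` in the product of `W` and `V'`; `B` is the function
field of `V'`. -/
noncomputable abbrev Family (B : IntermediateField ℂ K) (L : Type) [Field L] [Algebra L K] :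
    IntermediateField L K :=
  IntermediateField.adjoin L (B : Set K)

/-- `η` is a canonical form which is regular at all prime divisors. -/
def IsCanonicalForm (L : Type) [Field L] [Algebra ℂ L] (N : ℕ)
    (η : (Fin N → Derivation ℂ L L) → L) : Prop :=
  IsPluri 1 η ∧ ∀ P : Place ℂ L, Divisorial N P → RegAt P η

/-- `η` is a canonical form which is regular on the generic fibre of the rational map to the variety
whose function field is `B`: it is regular at all prime divisors which dominate this variety, i.e. at
which the nonzero elements of `B` have the order zero. -/
def IsFibreForm {A : Type} [Field A] [Algebra ℂ A] (B : Set A) (N : ℕ)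
    (η : (Fin N → Derivation ℂ A A) → A) : Prop :=
  IsPluri 1 η ∧ ∀ P : Place ℂ A, Divisorial N P → (∀ b ∈ B, b ≠ 0 → P.ord b = 0) → RegAt P η

/-- The forms `ω j` are canonical forms (possibly with poles), and all their products
`s 0 ⋯ s (k - 1) ω j` with elements `s i` of `S i ⊆ F i` are regular at all prime divisors. -/
def AreTwisted {J : Type} (F : Fin k → IntermediateField ℂ K) (S : Fin k → Set K) (N : ℕ)
    (ω : J → (Fin N → Derivation ℂ K K) → K) : Prop :=
  (∀ j, IsPluri 1 (ω j)) ∧ ∀ s : Fin k → K, (∀ i, s i ∈ F i ∧ s i ∈ S i) →
    ∀ (j : J) (P : Place ℂ K), Divisorial N P → RegAt P (fun D => (∏ i, s i) * ω j D)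

/-- The restrictions of the `ω j` to the generic fibre of `V ⇢ V'` generate its canonical forms, over
the function field `B` of `V'`. -/
def GenerateFibreForms {J : Type} (B : IntermediateField ℂ K)
    (ω : J → (Fin N → Derivation ℂ K K) → K) : Prop :=
  ∀ η, IsFibreForm (B : Set K) N η → η ∈ Submodule.span B (Set.range ω)

/-- The geometric genus of the variety with the function field `L` is zero: the only canonical form
which is regular at all prime divisors is `0`. -/
def GenusZero (L : Type) [Field L] [Algebra ℂ L] (N : ℕ) : Prop :=
  ∀ η, IsCanonicalForm L N η → ∀ D, η D = 0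

/-- The geometric genus of the generic fibre of `W' ⇢ V'` (the image in `W` of the generic fibre of
`V ⇢ V'`) is zero. -/
def FibreGenusZero (B : IntermediateField ℂ K) (L : Type) [Field L] [Algebra ℂ L] [Algebra L K]
    [IsScalarTower ℂ L K] (N : ℕ) : Prop :=
  ∀ η : (Fin N → Derivation ℂ (Family B L) (Family B L)) → Family B L,
    IsFibreForm {b : Family B L | (b : K) ∈ B} N η → ∀ D, η D = 0

/-- The function field of the canonical image of the variety with the function field `L`: it is
generated by the ratios of the regular canonical forms. -/
noncomputable def CanonicalField (L : Type) [Field L] [Algebra ℂ L] (N : ℕ) :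
    IntermediateField ℂ L :=
  IntermediateField.adjoin ℂ {z | ∃ η η' : (Fin N → Derivation ℂ L L) → L,
    IsCanonicalForm L N η ∧ IsCanonicalForm L N η' ∧ ∃ D, η' D ≠ 0 ∧ z = η D / η' D}

/-- The image of the canonical map of the varieties with function field `L`, of dimension `N`, has
dimension at least `j`: there are regular canonical forms with `j` algebraically independent
ratios. -/
def CanonicalImageDimGe (L : Type) [Field L] [Algebra ℂ L] (N j : ℕ) : Prop :=
  ∃ η : Fin (j + 1) → (Fin N → Derivation ℂ L L) → L, (∀ i, IsCanonicalForm L N (η i)) ∧
    ∃ D, η 0 D ≠ 0 ∧ AlgebraicIndependent ℂ (fun i : Fin j => η i.succ D / η 0 D)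

/-- The image of the canonical map of the generic fibre of `W' ⇢ V'` (the image in `W` of the generic
fibre of `V ⇢ V'`) has dimension at least `j`: there are canonical forms with `j` ratios which are
algebraically independent over the function field `B` of `V'`. -/
def FibreCanonicalImageDimGe (B : IntermediateField ℂ K) (L : Type) [Field L] [Algebra ℂ L]
    [Algebra L K] [IsScalarTower ℂ L K] (N j : ℕ) : Prop :=
  ∃ η : Fin (j + 1) → (Fin N → Derivation ℂ (Family B L) (Family B L)) → Family B L,
    (∀ i, IsFibreForm {b : Family B L | (b : K) ∈ B} N (η i)) ∧ ∃ D, η 0 D ≠ 0 ∧
      AlgebraicIndependent B (fun i : Fin j => ((η i.succ D / η 0 D : Family B L) : K))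

/-- **The canonical images of the images of a fibration.** Let `V ⇢ V'` be a dominant rational map of
varieties of the dimensions `N` and `n`, where the function field of `V'` is the compositum of the
subfields `F i`, the function fields of varieties `V' i`. Let `S i` be sets of functions on `V' i`, and
`ω j` canonical forms on `V` such that the forms `s 0 ⋯ s (k - 1) ω j`, `s i ∈ S i`, are regular, and
the restrictions of the `ω j` to the generic fibre generate its canonical forms. Let `V ⇢ W` be a
dominant rational map of finite degree, `L` the function field of `W`, and `d i` the degree over `W i`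
of the image of `V` in `W i × V' i`, where `W i` is the image of `V` in
`W × V' 0 × ... × V' (i - 1)`.
If `S i` separates `d i` general points of `V' i` for all `i`, then `p_g(W) = 0` if and only if the
geometric genus of the images in `W` of the fibres of `V ⇢ V'` is zero. If `S i` separates `2 d i`
general points of `V' i` for all `i`, then: if `p_g(W) ≠ 0` then the functions on `V'` are algebraic
over the function field of the canonical image of `W`, and `κ(W) ≥ n`; and the dimension of the
canonical image of `W` is at least `n + j` if and only if the dimension of the canonical image of the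
images in `W` of the fibres of `V ⇢ V'` is at least `j`. -/
theorem result [Algebra.EssFiniteType ℂ K] (hK : Algebra.trdeg ℂ K = (N : ℕ))
    (F : Fin k → IntermediateField ℂ K)
    (hF : Algebra.trdeg ℂ (⨆ i, F i : IntermediateField ℂ K) = n)
    (S : Fin k → Set K) {J : Type} [Finite J] {ω : J → (Fin N → Derivation ℂ K K) → K}
    (hω : AreTwisted F S N ω) (hgen : GenerateFibreForms (⨆ i, F i) ω)
    (L : Type) [Field L] [Algebra ℂ L] [Algebra L K] [IsScalarTower ℂ L K]
    [FiniteDimensional L K] :
    ((∀ i, Separates (F i) (S i) (deg F L i)) →
      (GenusZero L N ↔ FibreGenusZero (⨆ i, F i) L N)) ∧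
    ((∀ i, Separates (F i) (S i) (2 * deg F L i)) →
      (¬ GenusZero L N →
        (∀ z ∈ (⨆ i, F i : IntermediateField ℂ K), IsAlgebraic (CanonicalField L N) z) ∧
        KodGe ℂ L N (fun _ => False) n) ∧
      ∀ j : ℕ, (CanonicalImageDimGe L N (n + j) ↔
          FibreCanonicalImageDimGe (⨆ i, F i) L N j) ∧
        (FibreCanonicalImageDimGe (⨆ i, F i) L N j → KodGe ℂ L N (fun _ => False) (n + j))) := by
  obtain ⟨h0, h12⟩ := J4.H19.FD.main2 (S := S) hK rfl hF hω.1 hω.2 hgen L
    (M := Family (⨆ i, F i) L) rfl
  have hg : GenusZero L N ↔ J4.H19.FC.GenusZero L N :=
    ⟨fun h η hη hr D => h η ⟨hη, hr⟩ D, fun h η hη D => h η hη.1 hη.2 D⟩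
  refine ⟨fun hS => hg.trans (h0 hS), fun hS => ?_⟩
  obtain ⟨h1, h2⟩ := h12 hS
  refine ⟨fun h => ⟨h1 fun h' => h (hg.2 h'), ?_⟩, fun j => ⟨h2 j, fun h =>
    N145.SX.kodGe_of_canGe ((h2 j).2 h)⟩⟩
  have h3 : ¬ FibreGenusZero (⨆ i, F i) L N := fun h' =>
    h (hg.2 ((h0 fun i => J4.H18.MS.Separates.mono (hS i) (by
      change deg F L i ≤ 2 * deg F L i
      omega)).2 h'))
  unfold FibreGenusZero at h3
  push Not at h3
  obtain ⟨η, hη, D, hD⟩ := h3
  exact N145.SX.kodGe_of_canGe ((h2 0).2 ⟨fun _ => η, fun _ => hη, D, hD,
    algebraicIndependent_empty_type⟩)

end Pool.Agent.Results.MP_97d78d_ag.FibrationsOfAnyDimension
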