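import Pool.Agent.J4.H18.MS.Main
import Pool.Agent.J4.H18.MS.Poly

/-!
# Abundance for the images of fibrations by curves whose base has several maps

Let `V` be an arbitrary variety over `ℂ` of dimension `n + 1` and `V ⇢ V'` a dominant rational map with
irreducible general fibres (curves of any genus, any moduli, and any singular fibres) to an arbitrary
variety of dimension `n`. Let `V' ⇢ V' i`, `i < k`, be dominant rational maps to varieties of any
dimensions, such that the function fields of the `V' i` generate that of `V'`: the map from `V'` to
the product of the `V' i` is birational onto its image. Let `S i` be sets of rational functions on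
`V' i`, and `ω j` canonical forms of `V` (which may have poles) such that

* all the products `s 0 ⋯ s (k - 1) ω j`, `s i ∈ S i`, are regular, and
* the restrictions of the `ω j` to the geometric generic fibre `C` of `V ⇢ V'` generate `H⁰(C, K_C)`.

Let `V ⇢ W` be an arbitrary dominant rational map of finite degree; it has nothing to do with the
fibration and with the maps to the `V' i`, and it need not be the quotient by a group. Let `W i` be
the image of `V` in `W × V' 0 × ... × V' (i - 1)`, and let `d i` be the degree over `W i` of the image
of `V` in `W i × V' i`. The degree over `W` of the image of `V` in `W × V'` is the product of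
the `d i`.

* If for all `i` the functions in `S i` separate `d i` general points of `V' i` then `p_g(W) = 0` if
  and only if `κ(W) = -∞`, if and only if `K_W` is not pseudo-effective, if and only if `W` is
  uniruled.
* If for all `i` the functions in `S i` separate `2 d i` general points of `V' i` then `K_W` is
  pseudo-effective if and only if `κ(W) ≥ n = dim W - 1`, if and only if `W` is not uniruled; the
  Kodaira dimension is the dimension of the image of the canonical map (of `H⁰(K_W)`); `κ(W) = n` if
  and only if `W` is covered by elliptic curves and is not uniruled; and `κ(W) = n + 1` if and only if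
  the canonical map of `W` is generically finite, if and only if `W` is not covered by rational or
  elliptic curves.

A projective manifold (or a projective variety with terminal singularities) `X` with nef canonical
divisor is not uniruled, and if `κ(X) ≥ dim X - 1` then `K_X` is semiample (Kawamata, Lai; this is not
part of the Lean proof). So `K_X` is semiample for all projective manifolds `X` with nef canonical
divisor which are birational to such an image `W` with the second property.

## Examples

* (`separates_monomials`) The polynomials of degree at most `M i` in functions which generate the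
  function field of `V' i` separate `M i + 1` points. So if `V' i ⊂ ℙ^(N i)` has the hyperplane
  class `H i` then the conditions are: the sections of `K_V - ∑ M i H i` generate the differentials of
  the fibres, and `2 d i ≤ M i + 1` for all `i`. For `k = 1` this is
  `Pool.Agent.J4.H19.FC.Curves.result`. With several maps the conditions are weaker: the theorem for one
  map with the class `∑ H i` needs `2 ∏ d i ≤ min M i + 1`. For example, let `V` be a general
  hypersurface of multidegree `(e 1, ..., e n, a, b)` in `(ℙ ^ 1) ^ (n + 2)`, `a, b ≥ 2`, `e i ≥ 2`,
  over `V' = (ℙ ^ 1) ^ n`. Then all `W` with `2 d i ≤ e i - 1` are in our class, while the theorem for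
  one map needs `2 d 0 ⋯ d (n - 1) ≤ min e i - 1`.
* `V = X 0 × ... × X (k - 1) × C`, `V' i = X i`, where the canonical forms of `X i` separate `2 d i`
  points: `S i` are the values of the canonical forms of `X i` on a rational frame. This is
  `MP_97d78d_ag.ProductsOfVarieties`. More generally `V = V₀ ×_{V₀'} V'`, where `V₀ → V₀'` is a
  fibration by curves, `V₀' = ∏ Y i`, and `V' = ∏ X i` for coverings `X i → Y i` such that the sections
  of `K_(X i) - A i` separate `2 d i` points, for certain divisors `A i` which are pulled back from
  `Y i` and depend only on `V₀`.

## Proof

Let `σ j` be the trace of `ω j` on the image `W'` of `V` in `W × V'`. If all the `σ j` are zero then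
all regular differentials of `C` have trace zero on the image `C'` of `C` in the geometric generic
fibre of `W' ⇢ V'`, so `C'` is rational and `W`, `W'` are uniruled
(`Pool.Agent.J4.H19.FC.dich_gen`). The traces of the forms `s 0 ⋯ s (k - 1) ω j` on `W` are the traces
of the `s 0 ⋯ s (k - 1) σ j`. By the separation properties, for `i = k - 1, ..., 0`, not all of them
are zero if some `σ j` is not zero. Suppose that two generic points `P`, `Q` of `W` have the same
image under the map given by these traces. This is a relation between the points of `W'` over `P`
and `Q`, and it is multilinear in the values of the `s i`. At most `2 d i` points of `V' i` occur if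
the first `i` coordinates are fixed, so we can fix the coordinates one after the other. It follows
that for every point of `W'` over `P` there is a point of `W'` over `Q` with the same image in `V'`
and with the same ratios of the values of the `σ j`. So the functions of `V'` and the `σ j / σ i` are
algebraic over the field of the ratios of the traces, and the canonical image of `W` has dimension at
least `n`. If its dimension is `n` then the `σ j / σ i` are functions of `V'`, because the function
field of `V'` is algebraically closed in that of `V`. So the traces on `C'` of all regular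
differentials of `C` are multiples of one of them, `C'` has genus at most one, and the images of
these curves cover `W`; varieties covered by such curves are not of general type.

The relations between the points of two fibres and the elimination of the coordinates are due to
helper145 (`Pool/Agent/N145`), the theorems on the geometric generic fibre to helper19
(`Pool/Agent/J4/H19/FC`).

`K` and `L` are the function fields of `V` and `W`, `F i` is the one of `V' i`. Prime divisors over `V`
are the divisorial places `P` of `K` (`Divisorial`), and `P.ord` is the order along `P`. A canonical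
form (`IsPluri 1`) on a variety of dimension `n` is a function of `n` rational vector fields; it is
regular at the prime divisor `P` (`RegAt`) if its value on vector fields which are regular at `P` is
regular at `P`. `KodGe ℂ L n (fun _ => False) j` says that `κ(W) ≥ j`, `Psef ℂ L n (fun _ => False)`
that `K_W` is pseudo-effective, `GeneralType` that `κ(W) = dim W` (`Pool/Agent/W602/GT`),
`IsUniruled ℂ L n` that `W` is uniruled (`Pool/Agent/W619/PQ/Defs.lean`).
-/

set_option autoImplicit false
set_option linter.overlappingInstances false
set_option maxHeartbeats 4000000
set_option synthInstance.maxHeartbeats 400000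

open FF Module IntermediateField Pool.Agent Pool.Agent.W602.GT
open Pool.Agent.W619.PQ (IsUniruled)

namespace Pool.Agent.Results.MP_97d78d_ag.FibrationsWithSeveralMaps

variable {K : Type} [Field K] [Algebra ℂ K] {n k : ℕ}

/-- The functions in `S` separate `r` general points of the variety with the function field `E`: the
embeddings `σ : E → Ω` are the generic points of the variety with coordinates in the field `Ω`, and at
most `r` different such points impose independent conditions on the linear combinations of the
elements of `S`: if `∑ c σ * σ s = 0` for all `s` in `S` then all the coefficients `c σ` are zero. -/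
def Separates (E : IntermediateField ℂ K) (S : Set K) (r : ℕ) : Prop :=
  ∀ (Ω : Type) [Field Ω] [Algebra ℂ Ω] [IsAlgClosed Ω] (A : Finset (E →ₐ[ℂ] Ω)), A.card ≤ r →
    ∀ c : (E →ₐ[ℂ] Ω) → Ω, (∀ s : E, (s : K) ∈ S → ∑ σ ∈ A, c σ * σ s = 0) → ∀ σ ∈ A, c σ = 0

/-- **Example.** The monomials of degree at most `M` in generators `t j` of the function field
separate `M + 1` points. -/
theorem separates_monomials {N : ℕ} (t : Fin N → K) (M : ℕ) :
    Separates (IntermediateField.adjoin ℂ (Set.range t))
      {z | ∃ a : Fin N → ℕ, ∑ j, a j ≤ M ∧ z = ∏ j, t j ^ a j} (M + 1) :=
  J4.H18.MS.separates_monomials t M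

/-- The function field of the image `W i` of `V` in the product of `W` and the first `i` of the
varieties `V' l`, with the function fields `F l`. Here `K` and `L` are the function fields of `V`
and `W`. -/
noncomputable def Img (F : Fin k → IntermediateField ℂ K) (L : Type) [Field L] [Algebra L K]
    (i : ℕ) : IntermediateField L K :=
  IntermediateField.adjoin L {z | ∃ l : Fin k, l.val < i ∧ z ∈ F l}

/-- The degree `d i` over `W i` of the image of `V` in the product of `W i` and `V' i`. -/
noncomputable def deg (F : Fin k → IntermediateField ℂ K) (L : Type) [Field L] [Algebra L K]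
    (i : Fin k) : ℕ :=
  finrank (Img F L i) (IntermediateField.adjoin (Img F L i) (F i : Set K))

/-- The forms `ω j` are canonical forms (possibly with poles), and all their products
`s 0 ⋯ s (k - 1) ω j` with elements `s i` of `S i ⊆ F i` are regular at all prime divisors. -/
def AreTwisted {J : Type} (F : Fin k → IntermediateField ℂ K) (S : Fin k → Set K) (n : ℕ)
    (ω : J → (Fin n → Derivation ℂ K K) → K) : Prop :=
  (∀ j, IsPluri 1 (ω j)) ∧ ∀ s : Fin k → K, (∀ i, s i ∈ F i ∧ s i ∈ S i) →
    ∀ (j : J) (P : Place ℂ K), Divisorial n P → RegAt P (fun D => (∏ i, s i) * ω j D)

/-- The algebraic closure of the function field `B` of `V'`, in an algebraic closure of the function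
field `K` of `V`. -/
abbrev Const (B : IntermediateField ℂ K) : Type := algebraicClosure B (AlgebraicClosure K)

/-- The function field of the geometric generic fibre `C` of the map from `V` to the variety `V'` with
the function field `B`: the compositum of `K` and the algebraic closure of `B`. -/
abbrev GeometricFibre (B : IntermediateField ℂ K) : Type :=
  IntermediateField.adjoin (algebraicClosure B (AlgebraicClosure K))
    (Set.range (algebraMap K (AlgebraicClosure K)))

/-- The restriction to `C` of the rational function `z` on `V`. -/
noncomputable def restrict (B : IntermediateField ℂ K) (z : K) : GeometricFibre B :=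
  ⟨algebraMap K (AlgebraicClosure K) z, IntermediateField.subset_adjoin _ _ ⟨z, rfl⟩⟩

/-- The differential `f dx` of the curve with the function field `F` over `Λ`, where `D = d/dx`, is
regular: at each point `Q` with uniformizer `u`, the function `f dx/du = f / D u` is regular. -/
def IsRegular {Λ F : Type} [Field Λ] [Field F] [Algebra Λ F] (D : Derivation Λ F F) (f : F) :
    Prop :=
  ∀ (Q : Place Λ F) (u : F), Q.ord u = 1 → f = 0 ∨ Q.ord (D u) ≤ Q.ord f

/-- **The restrictions of the forms `ω j` to the geometric generic fibre `C` generate `H⁰(C, K_C)`.**
Let `x l` be coordinates on `V'` and `ξ` one more coordinate on `V`, and let the `E i` be the dual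
vector fields on `V`, so that `ω j = ω j (E) dx_1 ... dx_n dξ`. The restriction of `ω j` to `C` (as a
relative differential) is `ω j (E) dξ`. The condition is that all regular differentials `f dξ` of `C`
are linear combinations of them. -/
def GenerateFibreDifferentials {J : Type} (B : IntermediateField ℂ K)
    (ω : J → (Fin (n + 1) → Derivation ℂ K K) → K) : Prop :=
  ∀ (x : Fin n → K) (ξ : K), (∀ l, x l ∈ B) →
    IsTranscendenceBasis ℂ (Fin.append x (fun _ : Fin 1 => ξ)) →
    ∀ E : Fin (n + 1) → Derivation ℂ K K,
      (∀ i l, E i (Fin.append x (fun _ : Fin 1 => ξ) l) = if i = l then 1 else 0) →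
    ∀ D : Derivation (Const B) (GeometricFibre B) (GeometricFibre B), D (restrict B ξ) = 1 →
    ∀ f : GeometricFibre B, IsRegular D f →
      f ∈ Submodule.span (Const B) (Set.range fun j => restrict B (ω j E))

/-- The geometric genus of the variety with the function field `L` is zero: the only canonical form
which is regular at all prime divisors is `0`. -/
def GenusZero (L : Type) [Field L] [Algebra ℂ L] (n : ℕ) : Prop :=
  ∀ ω : (Fin n → Derivation ℂ L L) → L, IsPluri 1 ω →
    (∀ P : Place ℂ L, Divisorial n P → RegAt P ω) → ∀ D, ω D = 0

/-- The image of the canonical map of the varieties with function field `L`, of dimension `w`, has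
dimension at least `j`: there are canonical forms, regular at all prime divisors, with `j`
algebraically independent ratios. (`KodGe` is the same for pluricanonical forms of some weight.) -/
def CanonicalImageDimGe (L : Type) [Field L] [Algebra ℂ L] (w j : ℕ) : Prop :=
  ∃ ω : Fin (j + 1) → (Fin w → Derivation ℂ L L) → L,
    (∀ i, IsPluri 1 (ω i) ∧ ∀ P : Place ℂ L, Divisorial w P → RegAt P (ω i)) ∧
    ∃ D, ω 0 D ≠ 0 ∧ AlgebraicIndependent ℂ (fun i : Fin j => ω i.succ D / ω 0 D)

/-- The curve with the function field `F` over the algebraically closed field `Λ` is rational, i.e.
`F = Λ(t)`, or elliptic, i.e. it has a vector field `D` without zeros and poles: `D t` is a unit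
for the uniformizers `t` at all points `w`. -/
def IsRationalOrElliptic (Λ F : Type) [Field Λ] [Field F] [Algebra Λ F] : Prop :=
  (∃ t : F, Λ⟮t⟯ = ⊤) ∨ ∃ D : Derivation Λ F F, ∀ (w : Place Λ F) (t : F), w.ord t = 1 →
    D t ≠ 0 ∧ w.ord (D t) = 0

/-- The variety with the function field `L`, of dimension `n + 1`, is covered by an `n`-dimensional
family of rational or elliptic curves: there are an algebraically closed field `Λ` of transcendence
degree `n` (the algebraic closure of the function field of the base of the family) and a curve over
`Λ` with function field `F` (the geometric generic curve of the family), which is rational or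
elliptic, and an embedding of `L` into `F` (the dominant map from the total space to `W`). -/
def IsCoveredByRationalOrElliptic (L : Type) [Field L] [Algebra ℂ L] (n : ℕ) : Prop :=
  ∃ (Λ F : Type) (_ : Field Λ) (_ : Field F) (_ : Algebra ℂ Λ) (_ : Algebra ℂ F)
    (_ : Algebra Λ F) (_ : IsScalarTower ℂ Λ F) (_ : IsAlgClosed Λ) (_ : IsFF Λ F),
    Algebra.trdeg ℂ Λ = n ∧ IsRationalOrElliptic Λ F ∧ Nonempty (L →ₐ[ℂ] F)

theorem glo_iff {Λ F : Type} [Field Λ] [Field F] [Algebra Λ F] [CharZero Λ] [IsAlgClosed Λ]
    [IsFF Λ F] : N145.SX.GLO Λ F ↔ IsRationalOrElliptic Λ F := by
  unfold IsRationalOrElliptic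
  simp only [N145.SX.flat_iff]
  exact ⟨N145.SX.flat_of_glo, N145.SX.glo_of_flat⟩

theorem cover_iff (L : Type) [Field L] [Algebra ℂ L] (n : ℕ) :
    N145.SX.Cov1 L n ↔ IsCoveredByRationalOrElliptic L n := by
  constructor
  · rintro ⟨Λ, F, i1, i2, i3, i4, i5, i6, i7, i8, h1, h2, h3⟩
    have hch : CharZero Λ := charZero_of_injective_algebraMap (algebraMap ℂ Λ).injective
    exact ⟨Λ, F, i1, i2, i3, i4, i5, i6, i7, i8, h1, glo_iff.1 h2, h3⟩
  · rintro ⟨Λ, F, i1, i2, i3, i4, i5, i6, i7, i8, h1, h2, h3⟩
    have hch : CharZero Λ := charZero_of_injective_algebraMap (algebraMap ℂ Λ).injective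
    exact ⟨Λ, F, i1, i2, i3, i4, i5, i6, i7, i8, h1, glo_iff.2 h2, h3⟩

/-- **Abundance for the images of fibrations by curves with several maps on the base.** Let `V` be a
variety of dimension `n + 1` with function field `K`, and `V ⇢ V'` the map to the variety of
dimension `n` whose function field is the compositum of the subfields `F i`, the function fields of
varieties `V' i`, with irreducible general fibres (`hcl`). Let `S i` be sets of functions on `V' i`,
and `ω j` canonical forms on `V` such that the forms `s 0 ⋯ s (k - 1) ω j`, `s i ∈ S i`, are regular,
and the restrictions of the `ω j` to the geometric generic fibre generate its regular differentials.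
Let `V ⇢ W` be a dominant rational map of finite degree, `L` the function field of `W`, and `d i` the
degree over `W i` of the image of `V` in `W i × V' i`, where `W i` is the image of `V` in
`W × V' 0 × ... × V' (i - 1)`.
If `S i` separates `d i` general points of `V' i` for all `i`, then `p_g(W) = 0` if and only if
`κ(W) = -∞`, if and only if `K_W` is not pseudo-effective, if and only if `W` is uniruled. If `S i`
separates `2 d i` general points of `V' i` for all `i`, then: `K_W` is pseudo-effective if and only if
`κ(W) ≥ n = dim W - 1`, if and only if `W` is not uniruled; `κ(W) ≥ j` if and only if the image of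
the canonical map of `W` has dimension at least `j`; `κ(W) = n` if and only if `W` is not uniruled, but
covered by rational or elliptic curves; and `W` is of general type if and only if the canonical map of
`W` is generically finite, if and only if `W` is not covered by rational or elliptic curves. -/
theorem result [Algebra.EssFiniteType ℂ K] (hK : Algebra.trdeg ℂ K = (n + 1 : ℕ))
    (F : Fin k → IntermediateField ℂ K)
    (hF : Algebra.trdeg ℂ (⨆ i, F i : IntermediateField ℂ K) = n)
    (hcl : ∀ g : K, IsAlgebraic (⨆ i, F i : IntermediateField ℂ K) g → g ∈ ⨆ i, F i)
    (S : Fin k → Set K) {J : Type} [Finite J] {ω : J → (Fin (n + 1) → Derivation ℂ K K) → K}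
    (hω : AreTwisted F S (n + 1) ω) (hgen : GenerateFibreDifferentials (⨆ i, F i) ω)
    (L : Type) [Field L] [Algebra ℂ L] [Algebra L K] [IsScalarTower ℂ L K]
    [FiniteDimensional L K] :
    ((∀ i, Separates (F i) (S i) (deg F L i)) →
      [GenusZero L (n + 1), ¬ KodGe ℂ L (n + 1) (fun _ => False) 0,
        ¬ Psef ℂ L (n + 1) (fun _ => False), IsUniruled ℂ L (n + 1)].TFAE) ∧
    ((∀ i, Separates (F i) (S i) (2 * deg F L i)) →
      [Psef ℂ L (n + 1) (fun _ => False), KodGe ℂ L (n + 1) (fun _ => False) n,
        ¬ IsUniruled ℂ L (n + 1)].TFAE ∧
      (∀ j : ℕ, KodGe ℂ L (n + 1) (fun _ => False) j ↔ CanonicalImageDimGe L (n + 1) j) ∧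
      ((KodGe ℂ L (n + 1) (fun _ => False) n ∧ ¬ KodGe ℂ L (n + 1) (fun _ => False) (n + 1)) ↔
        (¬ IsUniruled ℂ L (n + 1) ∧ IsCoveredByRationalOrElliptic L n)) ∧
      [GeneralType ℂ L (n + 1), CanonicalImageDimGe L (n + 1) (n + 1),
        ¬ IsCoveredByRationalOrElliptic L n].TFAE) := by
  have hL : Algebra.trdeg ℂ L = (n + 1 : ℕ) := Pool.Agent.Y184.NT.trdeg_below (K := K) hK
  obtain ⟨h1, h2⟩ := J4.H18.MS.main (S := S) hK rfl hF hcl hω.1 hω.2 hgen L
  refine ⟨h1, fun hm => ?_⟩
  obtain ⟨h3, h4, h5⟩ := h2 hm
  rw [cover_iff] at h4
  have a2 : KodGe ℂ L (n + 1) (fun _ => False) n ↔ ¬ IsUniruled ℂ L (n + 1) := h3.out 1 2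
  have a3 : KodGe ℂ L (n + 1) (fun _ => False) (n + 1) ↔
      ¬ IsCoveredByRationalOrElliptic L n := h4.out 0 2
  refine ⟨h3, h5, ?_, ?_⟩
  · rw [a2, a3, not_not]
  · rwa [N145.SX.kodGe_iff hL] at h4

end Pool.Agent.Results.MP_97d78d_ag.FibrationsWithSeveralMaps
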