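import Pool.Agent.J4.H19.LC.Nc

/-!
# Abundance for abelian covers of projective space branched along log canonical hypersurfaces

Let `F k`, `k = 0, ..., n`, be forms of degrees `d k` in `n + 1` variables without a common zero such
that the pair of the projective `n`-space and the sum of the hypersurfaces `F k = 0` is log canonical.
(The hypersurfaces may be singular and reducible: in the plane, for instance, any three curves
without a common point whose union has only ordinary double points.) Let `X` be a projective manifold
which is birational to an abelian cover of the projective space which is branched only along these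
hypersurfaces: the function field `K` of `X` is generated by the affine coordinates
`x (b + 1) / x 0` and by roots `z j`, `z j ^ (m j) = ∏ k, (F k (x) / x 0 ^ (d k)) ^ (a j k)`, where
`m j` divides `∑ k, a j k * d k`.

The vectors `v ≠ 0` of nonnegative integers, not all positive, with `m j ∣ ∑ k, a j k * v k` for all
`j` are the `Admissible` ones. The `polyhedron` is the set of the rational vectors `y` with
`∑ k, d k * y k = ∑ k, (d k - 1)` and `∑ k, v k * y k ≥ 1` for all admissible `v`. The first part of
the theorem: `K_X` is pseudo-effective if and only if `κ (X) ≥ 0`, if and only if the polyhedron is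
not empty; in this case `κ (X) = ν (X)` is the dimension of the polyhedron. (So `K_X` is semiample if
it is nef, by a theorem of Kawamata.)

The second part: let `G i`, `i = 1, ..., N`, be any number of forms with normal crossings (at every
point the gradients of the forms which vanish there are linearly independent), distribute them into
`n + 1` classes and let `F k` be the product of the forms in the class `k`. Then the `F k` have no
common zero, and the pair is log canonical. So the theorem holds for the abelian covers which are
branched along normal crossing hypersurfaces of which there are at most `n + 1` types, where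
hypersurfaces of the same type have the same exponents `a j k`. The case of smooth hypersurfaces
`F k = 0` with normal crossings is in the starting library.

Log canonicity enters in two ways: the forms `∏ k, F k ^ (y k - 1) * Ω`, `y` in the polyhedron, are
regular; and the Jacobian determinant of the `F k` has order zero at all places over the toric
divisors of the target of the map of the projective space to itself given by powers of the `F k`, so
that there are no more sections.

The Kodaira and the numerical dimension are given by the sections of `m K_X` and of `m K_X + A`: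
functions of `n = dim X` rational vector fields, with a condition at all divisorial places of `K`, so
that they are the sections on every smooth projective model of `K`.
-/

set_option autoImplicit false

open FF MvPolynomial Pool.Agent.W602.GT

namespace Pool.Agent.Results.MP_97d78d_ag.LogCanonicalCovers

/-- The affine coordinates of the projective space. -/
noncomputable def affine {n : ℕ} {K : Type} [Field K] (x : Fin (n + 1) → K) (b : Fin n) : K :=
  x b.succ / x 0

/-- The value of the form `Ω = ∑ i, ± x i * d x 0 ∧ ... ∧ d x n` (without `d x i`) on vector fields: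
the determinant with the rows `x`, `D 0 x`, ..., `D (n - 1) x`. -/
noncomputable def form {n : ℕ} {K : Type} [Field K] [Algebra ℂ K] (x : Fin (n + 1) → K)
    (D : Fin n → Derivation ℂ K K) : K :=
  (Matrix.of fun i j : Fin (n + 1) => (Fin.cases (x j) (fun l => D l (x j)) i : K)).det

/-- The pair of the projective `n`-space and the sum of the hypersurfaces `F k = 0` is log
canonical: for all prime divisors `P` over the projective space (divisorial places `P` of its function
field `K`), and homogeneous coordinates `x` which are regular and not all zero at `P`, the canonical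
form of the projective space vanishes along `P` at least to the order `∑ k, P.ord (F k (x)) - 1`. -/
def LogCanonical {n : ℕ} (F : Fin (n + 1) → MvPolynomial (Fin (n + 1)) ℂ) : Prop :=
  ∀ (K : Type) [Field K] [Algebra ℂ K] (x : Fin (n + 1) → K), x 0 ≠ 0 →
    IsTranscendenceBasis ℂ (affine x) → IntermediateField.adjoin ℂ (Set.range (affine x)) = ⊤ →
    ∀ P : Place ℂ K, Divisorial n P → (∀ l, 0 ≤ P.ord (x l)) → (∃ l, P.ord (x l) = 0) →
    ∀ D : Fin n → Derivation ℂ K K, (∀ c, DerReg P (D c)) →
      form x D = 0 ∨ ∑ k, P.ord (aeval x (F k)) - 1 ≤ P.ord (form x D)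

/-- The hypersurfaces `F k = 0` have no common point. -/
def NoCommonPoint {n : ℕ} (F : Fin (n + 1) → MvPolynomial (Fin (n + 1)) ℂ) : Prop :=
  ∀ x : Fin (n + 1) → ℂ, x ≠ 0 → ∃ k, eval x (F k) ≠ 0

/-- The hypersurfaces `G i = 0` have normal crossings: at every point of the projective space the
gradients of the forms `G i` which vanish at this point are linearly independent. -/
def NormalCrossings {n N : ℕ} (G : Fin N → MvPolynomial (Fin (n + 1)) ℂ) : Prop :=
  ∀ x : Fin (n + 1) → ℂ, x ≠ 0 → LinearIndependent ℂ
    fun (i : {i // eval x (G i) = 0}) (l : Fin (n + 1)) => eval x (pderiv l (G i.1))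

section

variable {n R : ℕ}

/-- The multiplicities which satisfy the divisibility conditions. -/
def Admissible (m : Fin R → ℕ) (a : Fin R → Fin (n + 1) → ℕ) (v : Fin (n + 1) → ℕ) : Prop :=
  v ≠ 0 ∧ (∃ k, v k = 0) ∧ ∀ j, m j ∣ ∑ k, a j k * v k

/-- The exponents of the regular forms. -/
def polyhedron (m : Fin R → ℕ) (a : Fin R → Fin (n + 1) → ℕ) (d : Fin (n + 1) → ℕ) :
    Set (Fin (n + 1) → ℚ) :=
  {y | ∑ k, (d k : ℚ) * y k = ∑ k, ((d k : ℚ) - 1) ∧
    ∀ v, Admissible m a v → 1 ≤ ∑ k, (v k : ℚ) * y k}

end

section sections

/-- `ω` is a section of `m K_X + j A`: a rational section of the `m`-th power of the canonical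
bundle (`IsPluri`: a function of `N` rational vector fields which is multiplied by `det B ^ m` under
a linear substitution `B`) whose order on the vector fields which are regular at `P` is at least `j`
times the order of one of the functions in `S`, for all prime divisors `P` over `X` (all divisorial
places `P` of `K`). Here `A` is the divisor which is generated by the finite set `S` of functions;
`A = 0` if `S = {1}`. -/
def IsSection {K : Type} [Field K] [Algebra ℂ K] (N : ℕ) (S : Finset K) (m j : ℕ)
    (ω : (Fin N → Derivation ℂ K K) → K) : Prop :=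
  IsPluri m ω ∧ ∀ P : Place ℂ K, Divisorial N P → ∀ D : Fin N → Derivation ℂ K K,
    (∀ c, DerReg P (D c)) → ω D = 0 ∨ ∃ s ∈ S, s ≠ 0 ∧ j * P.ord s ≤ P.ord (ω D)

variable (N : ℕ) (K : Type) [Field K] [Algebra ℂ K]

/-- `κ (X) ≥ h`: for some `m > 0` there are sections of `m K_X` whose ratios contain `h`
algebraically independent functions (for `h = 0`: there is a nonzero section). -/
def KodairaGe (h : ℕ) : Prop :=
  ∃ m : ℕ, 0 < m ∧ ∃ ω : Fin (h + 1) → (Fin N → Derivation ℂ K K) → K,
    (∀ b, IsSection N {1} m 1 (ω b)) ∧
    ∃ D, ω 0 D ≠ 0 ∧ AlgebraicIndependent ℂ (fun b : Fin h => ω b.succ D / ω 0 D)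

/-- `ν (X) ≤ h`: for every divisor `A` there is a constant `C` such that
`h⁰ (m K_X + A) ≤ C m ^ h` for all `m ≥ 1`. -/
def NumericalLe (h : ℕ) : Prop :=
  ∀ S : Finset K, ∃ C : ℕ, ∀ m M : ℕ, 1 ≤ m →
    (∃ ω : Fin M → (Fin N → Derivation ℂ K K) → K, LinearIndependent ℂ ω ∧
      ∀ l, IsSection N S m 1 (ω l)) → M ≤ C * m ^ h

/-- `K_X` is pseudo-effective: there is a divisor `A` such that for all `M` a positive multiple of
`M K_X + A` is effective. -/
def Pseudoeffective : Prop :=
  ∃ S : Finset K, ∀ M : ℕ, ∃ j : ℕ, 1 ≤ j ∧ ∃ ω : (Fin N → Derivation ℂ K K) → K, ω ≠ 0 ∧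
    IsSection N S (j * M) j ω

end sections

/-- **Abundance.** Let `X` be a projective manifold birational to an abelian cover of the projective
`n`-space which is branched along `n + 1` hypersurfaces `F k = 0` without a common point, with a log
canonical sum, and let `K` be the function field of `X`. Then `K_X` is pseudo-effective if and only if
`κ (X) ≥ 0` and if and only if the polyhedron is not empty; in this case `κ (X) = ν (X)` is the
dimension of the polyhedron. The conditions hold if the `F k` are products of the members of `n + 1`
parts of a family with normal crossings. -/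
theorem result :
    (∀ (n R : ℕ), 1 ≤ n → ∀ d : Fin (n + 1) → ℕ, (∀ k, 1 ≤ d k) →
      ∀ F : Fin (n + 1) → MvPolynomial (Fin (n + 1)) ℂ, (∀ k, F k ≠ 0) →
      (∀ k, (F k).IsHomogeneous (d k)) → NoCommonPoint F → LogCanonical F →
      ∀ m : Fin R → ℕ, (∀ j, 1 ≤ m j) → ∀ a : Fin R → Fin (n + 1) → ℕ,
      (∀ j, m j ∣ ∑ k, a j k * d k) →
      ∀ (K : Type) [Field K] [Algebra ℂ K] (x : Fin (n + 1) → K), x 0 ≠ 0 →
      IsTranscendenceBasis ℂ (affine x) → ∀ z : Fin R → K,
      (∀ j, z j ^ m j = ∏ k, (aeval x (F k) / x 0 ^ d k) ^ a j k) →
      IntermediateField.adjoin ℂ (Set.range (affine x) ∪ Set.range z) = ⊤ →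
      (Pseudoeffective n K ↔ (polyhedron m a d).Nonempty) ∧
      (KodairaGe n K 0 ↔ (polyhedron m a d).Nonempty) ∧
      ((polyhedron m a d).Nonempty →
        KodairaGe n K (Module.finrank ℚ (vectorSpan ℚ (polyhedron m a d))) ∧
        NumericalLe n K (Module.finrank ℚ (vectorSpan ℚ (polyhedron m a d))))) ∧
    (∀ (n N : ℕ) (e : Fin N → ℕ) (G : Fin N → MvPolynomial (Fin (n + 1)) ℂ),
      (∀ i, (G i).IsHomogeneous (e i)) → NormalCrossings G → ∀ c : Fin N → Fin (n + 1),
      (∀ k, ∏ i with c i = k, G i ≠ 0) ∧ NoCommonPoint (fun k => ∏ i with c i = k, G i) ∧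
      LogCanonical fun k => ∏ i with c i = k, G i) := by
  constructor
  · intro n R hn d hd F hF0 hF hN hL m hm a hdiv K _ _ x hx0 hbas z hz hgen
    obtain ⟨e, rfl⟩ : ∃ e, n = e + 1 := ⟨n - 1, by omega⟩
    have hp : polyhedron m a d = Pool.Agent.J4.H19.LC.PiA m a d := by
      unfold polyhedron Pool.Agent.J4.H19.LC.PiA
      rw [Finset.sum_sub_distrib]
      simp only [Finset.sum_const, Finset.card_univ, Fintype.card_fin, nsmul_eq_mul, mul_one]
      rfl
    rw [hp]
    exact Pool.Agent.J4.H19.LC.main hx0 hbas hd hF hF0 hN hL hm hz hdiv hgen
  · intro n N e G hG hS c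
    refine ⟨fun k => Finset.prod_ne_zero_iff.2 fun i _ => Pool.Agent.J4.H19.LC.Nc.ncr_ne hS i, ?_, ?_⟩
    · exact Pool.Agent.J4.H19.LC.Nc.nc_noc hG hS c fun k => rfl
    · exact Pool.Agent.J4.H19.LC.Nc.nc_lca hG hS c fun k => rfl

end Pool.Agent.Results.MP_97d78d_ag.LogCanonicalCovers
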